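import Mathlib

namespace Pool.Agent.Results.MP_8ea6c6_co.Counter

/-- Least cost of a representation of k by elements of S. -/
noncomputable def minCost (S : Finset ℕ) (k : ℕ) : ℕ :=
  sInf {c | ∃ a : ℕ → ℕ, ∑ s ∈ S, a s * s = k ∧ ∑ s ∈ S, a s = c}

/-- Cost of the greedy procedure run through the list of generators. -/
noncomputable def greedyAux (M : AddSubmonoid ℕ) : List ℕ → ℕ → ℕ
  | [], _ => 0
  | s :: l, k => sSup {q | q * s ≤ k ∧ k - q * s ∈ M} +
      greedyAux M l (k - sSup {q | q * s ≤ k ∧ k - q * s ∈ M} * s)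

noncomputable def greedyCost (S : Finset ℕ) (k : ℕ) : ℕ :=
  greedyAux (AddSubmonoid.closure (S : Set ℕ)) (S.sort (· ≥ ·)) k

def IsGreedy (S : Finset ℕ) : Prop :=
  ∀ k ∈ AddSubmonoid.closure (S : Set ℕ), greedyCost S k = minCost S k

theorem sup_eq (T : Set ℕ) (q : ℕ) (h1 : q ∈ T) (h2 : ∀ x ∈ T, x ≤ q) : sSup T = q :=
  IsGreatest.csSup_eq ⟨h1, h2⟩

theorem result : ∃ (S : Finset ℕ) (F : ℕ), (∀ s ∈ S, 0 < s) ∧ S.gcd id = 1 ∧ 1 ∉ S ∧
    (∀ s ∈ S, s ∉ AddSubmonoid.closure ((S.erase s : Finset ℕ) : Set ℕ)) ∧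
    FrobeniusNumber F (S : Set ℕ) ∧ (∀ s ∈ S, s < F) ∧ IsGreedy S ∧ ¬ IsGreedy (insert F S) := by
  have m3 : ∀ k, k ∈ AddSubmonoid.closure (({4, 6, 9} : Finset ℕ) : Set ℕ) ↔
      ∃ a b c, k = 4 * a + 6 * b + 9 * c := by
    intro k
    rw [AddSubmonoid.mem_closure_finset]
    constructor
    · rintro ⟨f, -, h⟩
      simp at h
      exact ⟨f 4, f 6, f 9, by omega⟩
    · rintro ⟨a, b, c, rfl⟩
      refine ⟨fun s => if s = 4 then a else if s = 6 then b else if s = 9 then c else 0, ?_, ?_⟩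
      · intro s hs
        by_contra h
        simp at h hs
        simp [h] at hs
      · simp; omega
  have m3' : ∀ k, k ∈ AddSubmonoid.closure (({4, 6, 9} : Finset ℕ) : Set ℕ) ↔
      k = 0 ∨ k = 4 ∨ k = 6 ∨ k = 8 ∨ k = 9 ∨ k = 10 ∨ 12 ≤ k := by
    intro k
    rw [m3]
    constructor
    · rintro ⟨a, b, c, rfl⟩
      rcases c with _ | _ | c <;> rcases b with _ | _ | b <;> omega
    · intro h
      by_cases h2 : k % 2 = 0
      · by_cases h4 : k % 4 = 0
        · exact ⟨k / 4, 0, 0, by omega⟩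
        · exact ⟨(k - 6) / 4, 1, 0, by omega⟩
      · by_cases h4 : k % 4 = 1
        · exact ⟨(k - 9) / 4, 0, 1, by omega⟩
        · exact ⟨(k - 15) / 4, 1, 1, by omega⟩
  have m2 : ∀ x y k : ℕ, x ≠ y → k ∈ AddSubmonoid.closure (({x, y} : Finset ℕ) : Set ℕ) →
      ∃ a b, k = a * x + b * y := by
    intro x y k hxy h
    obtain ⟨f, -, h⟩ := AddSubmonoid.mem_closure_finset.1 h
    rw [Finset.sum_pair hxy] at h
    exact ⟨f x, f y, h.symm⟩
  refine ⟨{4, 6, 9}, 11, by decide, by decide, by decide, ?_, ⟨?_, ?_⟩, by decide, ?_, ?_⟩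
  · intro s hs h
    simp only [Finset.mem_insert, Finset.mem_singleton] at hs
    rcases hs with rfl | rfl | rfl
    · obtain ⟨a, b, h⟩ := m2 6 9 4 (by norm_num) h; omega
    · obtain ⟨a, b, h⟩ := m2 4 9 6 (by norm_num) h; omega
    · obtain ⟨a, b, h⟩ := m2 4 6 9 (by norm_num) h; omega
  · simp only [Set.mem_ofPred_eq, m3']; omega
  · intro k hk
    simp only [Set.mem_ofPred_eq, m3'] at hk; omega
  · intro k hk
    have hs : ({4, 6, 9} : Finset ℕ).sort (· ≥ ·) = [9, 6, 4] := by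
      simp [Finset.sort_insert, Finset.insert_comm 4 6, Finset.pair_comm 4 9,
        Finset.insert_comm 6 9]
    obtain ⟨q, r, rfl, hr⟩ : ∃ q r, k = 9 * q + r ∧ (r = 0 ∨ r = 4 ∨ r = 6 ∨ r = 8 ∨ r = 10 ∨
        r = 12 ∨ r = 14 ∨ r = 16 ∨ r = 20) := by
      rw [m3'] at hk
      have h9 : k % 9 < 9 := Nat.mod_lt _ (by norm_num)
      interval_cases h : k % 9
      exacts [⟨k / 9, 0, by omega, by omega⟩, ⟨(k - 10) / 9, 10, by omega, by omega⟩,
        ⟨(k - 20) / 9, 20, by omega, by omega⟩, ⟨(k - 12) / 9, 12, by omega, by omega⟩,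
        ⟨(k - 4) / 9, 4, by omega, by omega⟩, ⟨(k - 14) / 9, 14, by omega, by omega⟩,
        ⟨(k - 6) / 9, 6, by omega, by omega⟩, ⟨(k - 16) / 9, 16, by omega, by omega⟩,
        ⟨(k - 8) / 9, 8, by omega, by omega⟩]
    obtain ⟨b, a, hab, hb⟩ : ∃ b a, r = 6 * b + 4 * a ∧ a ≤ 2 := by
      rcases hr with rfl | rfl | rfl | rfl | rfl | rfl | rfl | rfl | rfl
      exacts [⟨0, 0, rfl, by omega⟩, ⟨0, 1, rfl, by omega⟩, ⟨1, 0, rfl, by omega⟩,
        ⟨0, 2, rfl, by omega⟩, ⟨1, 1, rfl, by omega⟩, ⟨2, 0, rfl, by omega⟩,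
        ⟨1, 2, rfl, by omega⟩, ⟨2, 1, rfl, by omega⟩, ⟨2, 2, rfl, by omega⟩]
    have hm : minCost {4, 6, 9} (9 * q + r) = q + (b + a) := by
      apply le_antisymm
      · refine Nat.sInf_le ⟨fun s => if s = 4 then a else if s = 6 then b else q, ?_, ?_⟩ <;>
          simp <;> omega
      · refine le_csInf ⟨_, fun s => if s = 4 then a else if s = 6 then b else q, ?_, rfl⟩ ?_
        · simp; omega
        · rintro c ⟨f, h1, rfl⟩
          simp at h1 ⊢
          omega
    rw [hm, greedyCost, hs]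
    simp only [greedyAux, m3']
    rw [sup_eq _ q (by simp; omega) (by simp; omega), show 9 * q + r - q * 9 = r by omega,
      sup_eq _ b (by simp; omega) (by simp; omega), show r - b * 6 = 4 * a by omega,
      sup_eq _ a (by simp; omega) (by simp; omega)]
    simp
  · intro h
    have m4 : ∀ k, k ∈ AddSubmonoid.closure ((insert 11 {4, 6, 9} : Finset ℕ) : Set ℕ) ↔
        k = 0 ∨ k = 4 ∨ k = 6 ∨ 8 ≤ k := by
      intro k
      constructor
      · intro h
        obtain ⟨f, -, h⟩ := AddSubmonoid.mem_closure_finset.1 h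
        simp at h
        rcases Nat.eq_zero_or_pos (f 11) with h1 | h1 <;>
          rcases Nat.eq_zero_or_pos (f 9) with h2 | h2 <;>
          rcases Nat.eq_zero_or_pos (f 6) with h3 | h3 <;> omega
      · intro h
        by_cases h11 : k = 11
        · exact AddSubmonoid.subset_closure (by simp [h11])
        · exact AddSubmonoid.closure_mono (by simp) ((m3' k).2 (by omega))
    have hs : (insert 11 {4, 6, 9} : Finset ℕ).sort (· ≥ ·) = [11, 9, 6, 4] := by
      simp [Finset.sort_insert, Finset.insert_comm 4 6, Finset.pair_comm 4 9,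
        Finset.insert_comm 6 9]
    have h27 := h 27 ((m4 27).2 (by omega))
    have hm : minCost (insert 11 {4, 6, 9}) 27 ≤ 3 :=
      Nat.sInf_le ⟨fun s => if s = 9 then 3 else 0, by simp, by simp⟩
    rw [← h27, greedyCost, hs] at hm
    simp only [greedyAux, m4] at hm
    rw [sup_eq _ 1 (by simp) (by simp; omega), sup_eq _ 0 (by simp) (by simp; omega),
      sup_eq _ 2 (by simp) (by simp; omega), sup_eq _ 1 (by simp) (by simp; omega)] at hm
    omega

end Pool.Agent.Results.MP_8ea6c6_co.Counter
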